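import Pool.Agent.W562.HY.Defs

/-!
Project HY, part VSMALL: four sentences hold in the true structure.
-/

set_option autoImplicit false

namespace Pool.Agent.W351.HY

open Encodable Denumerable Nat.Partrec Pool.Agent.W562.HY

theorem dF_encode (s : Finset ℕ) : dF (encode s.toList) = s := by
  unfold dF
  rw [ofNat_encode, Finset.toList_toFinset]

theorem vDiff : P_vDiff := by
  classical
  intro Y W a b
  refine ⟨fun k => encode (if a * (blk VV Y k).card ≤ b * (blk VV Y k \ blk VV W k).card then
    blk VV Y k \ blk VV W k else ∅ : Finset ℕ).toList, fun k => ?_⟩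
  have h : ∀ (g : ℕ → Finset ℕ), blk VV (fun k => encode (g k).toList) k = g k := by
    intro g
    exact dF_encode (g k)
  constructor
  · intro hc
    rw [h fun k => if a * (blk VV Y k).card ≤ b * (blk VV Y k \ blk VV W k).card then
      blk VV Y k \ blk VV W k else ∅]
    exact if_pos hc
  · intro hc
    rw [h fun k => if a * (blk VV Y k).card ≤ b * (blk VV Y k \ blk VV W k).card then
      blk VV Y k \ blk VV W k else ∅]
    exact if_neg hc

theorem vPerp : P_vPerp := by
  intro c
  refine ⟨{p | Perp VV c p.1.unpair.1 p.1.unpair.2 p.2}, fun n F Y => ?_⟩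
  show Perp VV c (Nat.pair n F).unpair.1 (Nat.pair n F).unpair.2 Y ↔ _
  rw [Nat.unpair_pair]

theorem vComp : P_vComp := by
  intro e he
  choose f hf using he
  exact ⟨f, hf⟩

theorem vJoin : P_vJoin := by
  intro V Y J m a b
  refine ⟨fun t => if t.unpair.1 = m then
      (if t.unpair.2.unpair.1 = 0 then Y t.unpair.2.unpair.2
        else if t.unpair.2.unpair.1 = 1 then J t.unpair.2.unpair.2 else Nat.pair a b)
      else V t, ?_, ?_, ?_, ?_⟩
  · intro i t hi
    show (if (Nat.pair i t).unpair.1 = m then _ else V (Nat.pair i t)) = V (Nat.pair i t)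
    rw [if_neg (by rw [Nat.unpair_pair]; exact hi)]
  · intro k
    simp [VV, Nat.unpair_pair]
  · intro k
    simp [VV, Nat.unpair_pair]
  · simp [VV, Nat.unpair_pair]

end Pool.Agent.W351.HY
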