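import Pool.Agent.W562.HY.Defs

/-!
Project HY, part GEN: generic sequences of conditions.
-/

set_option autoImplicit false

namespace Pool.Agent.W351.HY.G

open Encodable Denumerable Nat.Partrec Pool.Agent.W562.HY

theorem dF_surj (s : Finset ℕ) : ∃ n, dF n = s := by
  refine ⟨encode s.toList, ?_⟩
  unfold dF
  rw [ofNat_encode, Finset.toList_toFinset]

section
variable {S : Str} {A : Set ℕ} {𝒰 : Ultrafilter ℕ}

theorem kk_inf (hU : ∀ k0, {k | k0 ≤ k} ∈ 𝒰) {Y : S.R} (h : Subst S A 𝒰 Y) :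
    (KK S Y).Infinite := by
  obtain ⟨c, _, hc⟩ := h
  intro hfin
  obtain ⟨k0, hk0⟩ := hfin.bddAbove
  have h2 := Filter.inter_mem hc (hU (k0 + 1))
  obtain ⟨k, hk1, hk2⟩ := 𝒰.nonempty_of_mem h2
  have h3 : k ≤ k0 := hk0 hk1.1
  have h4 : k0 + 1 ≤ k := hk2
  omega

theorem le_refl' {Y : S.R} (F : ℕ) (h : (KK S Y).Infinite) : Le S F Y F Y := by
  refine ⟨Finset.Subset.refl _, fun n hn => Or.inl hn, fun k => Finset.Subset.refl _, h, 1, 1,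
    one_pos, fun k _ => le_rfl⟩

theorem grow_of {Y Y' : S.R} {F F' : ℕ} (h : Le S F' Y' F Y) (hg : Grow S Y) : Grow S Y' := by
  intro k n hn
  exact hg k n (h.2.2.1 k hn)

theorem inA_inf (hU : ∀ k0, {k | k0 ≤ k} ∈ 𝒰) {Y : S.R} (h : Subst S A 𝒰 Y) (hg : Grow S Y) :
    {n | n ∈ A ∧ InU S n Y}.Infinite := by
  obtain ⟨c, hc0, hc⟩ := h
  rw [Set.infinite_iff_exists_gt]
  intro l
  have h2 := Filter.inter_mem hc (hU (l + 1))
  obtain ⟨k, hk1, hk2⟩ := 𝒰.nonempty_of_mem h2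
  have hpos : (0 : ℝ) < cA A (blk S Y k) := by
    have h3 : (0 : ℝ) < (blk S Y k).card := by exact_mod_cast hk1.1.card_pos
    exact lt_of_lt_of_le (mul_pos hc0 h3) hk1.2
  have hpos' : 0 < cA A (blk S Y k) := by exact_mod_cast hpos
  unfold cA at hpos'
  obtain ⟨x, hx1, hx2⟩ := Set.nonempty_of_ncard_ne_zero hpos'.ne'
  refine ⟨x, ⟨hx2, k, hx1⟩, ?_⟩
  have h5 := hg k x hx1
  have h6 : l + 1 ≤ k := hk2
  omega

end

/-- a state -/
structure St (S : Str) (A : Set ℕ) (𝒰 : Ultrafilter ℕ) where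
  F : ℕ
  Y : S.R
  co : Compat S A 𝒰 F Y
  gr : Grow S Y

/-- the tasks -/
def Done (S : Str) (A X : Set ℕ) (𝒰 : Ultrafilter ℕ) :
    (S.C × ℕ) ⊕ (S.C × ℕ) ⊕ ℕ → St S A 𝒰 → Prop
  | Sum.inl (c, n), s => Opn S c n → S.mem c (Nat.pair n s.F) s.Y ∨ Perp S c n s.F s.Y
  | Sum.inr (Sum.inl (c, n)), s => (∀ x, Opn S c (Nat.pair x n)) → ∃ x,
      (x ∉ X ∧ S.mem c (Nat.pair (Nat.pair x n) s.F) s.Y) ∨
        (x ∈ X ∧ Perp S c (Nat.pair x n) s.F s.Y)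
  | Sum.inr (Sum.inr m), s => m ≤ (dF s.F).card

theorem step (hml : P_ml) (hxl : P_xl) (S : Str) (hD : SDiff S) (hP : SPerp S) (X : Set ℕ)
    (hX : ∀ Q : S.R, ¬ ∀ x, S.app Q x = 1 ↔ x ∈ X) (A : Set ℕ) (𝒰 : Ultrafilter ℕ)
    (hU : Uf S A 𝒰) (t : (S.C × ℕ) ⊕ (S.C × ℕ) ⊕ ℕ) (s : St S A 𝒰) :
    ∃ s' : St S A 𝒰, Le S s'.F s'.Y s.F s.Y ∧ Done S A X 𝒰 t s' := by
  rcases t with ⟨c, n⟩ | ⟨c, n⟩ | m
  · by_cases ho : Opn S c n
    · obtain ⟨F', Y', hle, hco, hor⟩ := hml S A 𝒰 hU hD c n ho s.F s.Y s.co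
      exact ⟨⟨F', Y', hco, grow_of hle s.gr⟩, hle, fun _ => hor⟩
    · exact ⟨s, le_refl' s.F (kk_inf hU.free s.co.2), fun h => absurd h ho⟩
  · by_cases ho : ∀ x, Opn S c (Nat.pair x n)
    · obtain ⟨x, F', Y', hle, hco, hor⟩ := hxl S A 𝒰 hU hD hP X hX c n ho s.F s.Y s.co
      exact ⟨⟨F', Y', hco, grow_of hle s.gr⟩, hle, fun _ => ⟨x, hor⟩⟩
    · exact ⟨s, le_refl' s.F (kk_inf hU.free s.co.2), fun h => absurd h ho⟩
  · obtain ⟨T, hT, hTc⟩ := (inA_inf hU.free s.co.2 s.gr).exists_subset_card_eq m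
    obtain ⟨F', hF'⟩ := dF_surj (dF s.F ∪ T)
    refine ⟨⟨F', s.Y, ⟨?_, s.co.2⟩, s.gr⟩, ⟨?_, ?_, (le_refl' s.F (kk_inf hU.free s.co.2)).2.2⟩,
      ?_⟩
    · intro x hx
      rw [hF', Finset.mem_union] at hx
      rcases hx with hx | hx
      · exact s.co.1 x hx
      · exact (hT hx).1
    · show dF s.F ⊆ dF F'
      rw [hF']
      exact Finset.subset_union_left
    · intro x hx
      change x ∈ dF F' at hx
      rw [hF', Finset.mem_union] at hx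
      rcases hx with hx | hx
      · exact Or.inl hx
      · exact Or.inr (hT hx).2
    · show m ≤ (dF F').card
      rw [hF', ← hTc]
      exact Finset.card_le_card Finset.subset_union_right

theorem main : P_gen := by
  intro hml hxl S hC hD hP X hX A 𝒰 hU Y0 hg hs
  choose f hf1 hf2 using step hml hxl S hD hP X hX A 𝒰 hU
  obtain ⟨e, he⟩ := exists_surjective_nat ((S.C × ℕ) ⊕ (S.C × ℕ) ⊕ ℕ)
  obtain ⟨F0, hF0⟩ := dF_surj ∅
  let s0 : St S A 𝒰 := ⟨F0, Y0, ⟨fun x hx => by rw [hF0] at hx; simp at hx, hs⟩, hg⟩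
  let s : ℕ → St S A 𝒰 := fun i => Nat.rec s0 (fun i t => f (e i) t) i
  have hs1 : ∀ i, s (i + 1) = f (e i) (s i) := fun i => rfl
  refine ⟨fun i => (s i).F, fun i => (s i).Y, ?_⟩
  constructor
  · intro i
    show Le S (s (i + 1)).F (s (i + 1)).Y (s i).F (s i).Y
    rw [hs1]
    exact hf1 _ _
  · intro i
    exact (s i).co.1
  · intro m
    obtain ⟨i, hi⟩ := he (Sum.inr (Sum.inr m))
    refine ⟨i + 1, ?_⟩
    have := hf2 (e i) (s i)
    rw [← hs1, hi] at this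
    exact this
  · intro i
    exact (s i).gr
  · intro i
    exact kk_inf hU.free (s i).co.2
  · intro c n ho
    obtain ⟨i, hi⟩ := he (Sum.inl (c, n))
    refine ⟨i + 1, ?_⟩
    have := hf2 (e i) (s i)
    rw [← hs1, hi] at this
    exact this ho
  · intro c n ho
    obtain ⟨i, hi⟩ := he (Sum.inr (Sum.inl (c, n)))
    have := hf2 (e i) (s i)
    rw [← hs1, hi] at this
    obtain ⟨x, hx⟩ := this ho
    exact ⟨x, i + 1, hx⟩

end Pool.Agent.W351.HY.G
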